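import Mathlib
import Pool.Agent.Lib_helper15.PENT.TBox
import Pool.Agent.Lib_helper15.PENT.TDet

/-!
# PENT (MP_892e4c_nt), block S4 (helper87): the sequence and the scales are determined by the
pentagon
-/

set_option autoImplicit false

namespace Pool.Agent.PENT

open Finset

/-- one half of the comparison of the scales -/
theorem s4_le {k l : ℕ} (hl : l ≤ 3) {m n : ℕ} {a b : ℝ} {u : ℤ × ℤ} (ha : 0 < a)
    (h : Bx k (2 ^ m) a b u) (h' : Bx l (2 ^ n) a b u) : m ≤ n := by
  by_contra hmn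
  push Not at hmn
  have h1 : (2 : ℝ) ^ m * a < (u.1 : ℝ) := h.1
  have h2 : (u.1 : ℝ) ≤ (101 / 100 : ℝ) ^ l * ((2 : ℝ) ^ n * a) := h'.2.1
  have h3 : (101 / 100 : ℝ) ^ l ≤ 2 := by
    calc (101 / 100 : ℝ) ^ l ≤ (101 / 100 : ℝ) ^ 3 := pow_le_pow_right₀ (by norm_num) hl
      _ ≤ 2 := by norm_num
  have h4 : (2 : ℝ) ^ (n + 1) ≤ (2 : ℝ) ^ m := pow_le_pow_right₀ (by norm_num) hmn
  have h5 : (0 : ℝ) < (2 : ℝ) ^ n := by positivity
  rw [pow_succ] at h4
  have h6 : (101 / 100 : ℝ) ^ l * ((2 : ℝ) ^ n * a) ≤ 2 * ((2 : ℝ) ^ n * a) :=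
    mul_le_mul_of_nonneg_right h3 (by positivity)
  have h7 : (2 : ℝ) ^ n * 2 * a ≤ (2 : ℝ) ^ m * a := mul_le_mul_of_nonneg_right h4 ha.le
  linarith

/-- the comparison of the scales -/
theorem s4_eq {k l : ℕ} (hk : k ≤ 3) (hl : l ≤ 3) {m n : ℕ} {a b : ℝ} {u : ℤ × ℤ} (ha : 0 < a)
    (h : Bx k (2 ^ m) a b u) (h' : Bx l (2 ^ n) a b u) : m = n :=
  le_antisymm (s4_le hl ha h h') (s4_le hk ha h' h)

theorem pol5_inj_pr {P : ℝ} {i i' : Fin 5 → ℕ} {v w v' w' : ℤ × ℤ} {t t' : ℕ → ℕ}
    (hb : Bas (fun j => 2 ^ i j) v w) (hb' : Bas (fun j => 2 ^ i' j) v' w')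
    (ht : t ∈ TT (S5 P (fun j => 2 ^ i j) v w) 6)
    (ht' : t' ∈ TT (S5 P (fun j => 2 ^ i' j) v' w') 6)
    (he : pol5 v w t = pol5 v' w' t') : i = i' ∧ v = v' ∧ w = w' ∧ t = t' := by
  have T : TF P (fun j => 2 ^ i j) v w t := tf_of_mem (fun j => by positivity) hb ht
  have T' : TF P (fun j => 2 ^ i' j) v' w' t' := tf_of_mem (fun j => by positivity) hb' ht'
  have e0 : uu (uu v w (t 2) (t 3)) w (t 4) (t 5) =
      uu (uu v' w' (t' 2) (t' 3)) w' (t' 4) (t' 5) := by
    have := congrFun he 0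
    simpa [pol5] using this
  have e1 : w = w' := by
    have := congrFun he 1
    simpa [pol5] using this
  have e2 : uu v w (t 0) (t 1) = uu v' w' (t' 0) (t' 1) := by
    have := congrFun he 2
    simpa [pol5] using this
  have e3 : v = v' := by
    have := congrFun he 3
    simpa [pol5] using this
  have e4 : uu v w (t 2) (t 3) = uu v' w' (t' 2) (t' 3) := by
    have := congrFun he 4
    simpa [pol5] using this
  have c0 : i 0 = i' 0 := by
    have h := T.b0
    have h' := T'.b0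
    rw [← e0] at h'
    exact s4_eq (by norm_num) (by norm_num) (by norm_num) h h'
  have c1 : i 1 = i' 1 := by
    have h := hb.b1
    have h' := hb'.b1
    rw [← e1] at h'
    exact s4_eq (by norm_num) (by norm_num) (by norm_num) h h'
  have c2 : i 2 = i' 2 := by
    have h := T.b2
    have h' := T'.b2
    rw [← e2] at h'
    exact s4_eq (by norm_num) (by norm_num) (by norm_num) h h'
  have c3 : i 3 = i' 3 := by
    have h := hb.b3
    have h' := hb'.b3
    rw [← e3] at h'
    exact s4_eq (by norm_num) (by norm_num) (by norm_num) h h'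
  have c4 : i 4 = i' 4 := by
    have h := T.b4
    have h' := T'.b4
    rw [← e4] at h'
    exact s4_eq (by norm_num) (by norm_num) (by norm_num) h h'
  obtain ⟨d5, d1, d0, d2, d4⟩ := pol5_det T
  obtain ⟨d5', d1', d0', d2', d4'⟩ := pol5_det T'
  rw [← he] at d5' d1' d0' d2' d4'
  have f3 : t 3 = t' 3 := by
    have h := T.d4
    have h' := T'.d4
    rw [← e4, ← e1, h] at h'
    exact_mod_cast h'
  refine ⟨?_, e3, e1, ?_⟩
  · funext j
    fin_cases j
    · exact c0
    · exact c1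
    · exact c2
    · exact c3
    · exact c4
  · funext j
    by_cases hj : 6 ≤ j
    · rw [TT_zero_of_le ht j hj, TT_zero_of_le ht' j hj]
    · push Not at hj
      interval_cases j
      · exact d0.symm.trans d0'
      · exact d1.symm.trans d1'
      · exact d2.symm.trans d2'
      · exact f3
      · exact d4.symm.trans d4'
      · exact d5.symm.trans d5'

end Pool.Agent.PENT
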